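import Pool.Agent.Y160.EN.Stm

/-!
# From points at which the values are `q`-th powers to the polynomials `A u + b ^ q`
(job EN-IRR2 of helper160)
-/

set_option autoImplicit false

open Polynomial

namespace Pool.Agent.Y971.EN

open Pool.Agent.Y160.T3 Pool.Agent.Y160.EN

section

variable {F : Type} [Field F] {n k : ℕ}

/-- The polynomial with the given zeros. -/
noncomputable def AA (x : Fin n → F) : F[X] := ∏ i, (X - C (x i))

lemma AA_monic (x : Fin n → F) : (AA x).Monic := monic_prod_of_monic _ _ fun i _ => monic_X_sub_C _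

lemma AA_natDegree (x : Fin n → F) : (AA x).natDegree = n := by
  rw [AA, natDegree_prod_of_monic _ _ fun i _ => monic_X_sub_C _]
  simp

lemma AA_degree (x : Fin n → F) : (AA x).degree = (n : WithBot ℕ) := by
  rw [degree_eq_natDegree (AA_monic x).ne_zero, AA_natDegree]

lemma AA_eval (x : Fin n → F) (i : Fin n) : (AA x).eval (x i) = 0 := by
  rw [AA, eval_prod]
  exact Finset.prod_eq_zero (Finset.mem_univ i) (by simp)

/-- Interpolation with further parameters. -/
noncomputable def bb (x z : Fin n → F) (v : Fin k → F) : F[X] :=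
  Lagrange.interpolate Finset.univ x z + AA x * bF v

lemma bb_eval {x : Fin n → F} (hx : Function.Injective x) (z : Fin n → F) (v : Fin k → F)
    (i : Fin n) : (bb x z v).eval (x i) = z i := by
  rw [bb, eval_add, eval_mul, AA_eval, zero_mul, add_zero]
  exact Lagrange.eval_interpolate_at_node z hx.injOn (Finset.mem_univ i)

lemma bb_degree {x : Fin n → F} (hx : Function.Injective x) (z : Fin n → F) (v : Fin k → F) :
    (bb x z v).degree < ((n + k : ℕ) : WithBot ℕ) := by
  rw [bb]
  refine (degree_add_le _ _).trans_lt (max_lt ?_ ?_)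
  · have h1 := Lagrange.degree_interpolate_lt (s := Finset.univ) z hx.injOn
    rw [Finset.card_univ, Fintype.card_fin] at h1
    exact h1.trans_le (by exact_mod_cast Nat.le_add_right n k)
  · rw [degree_mul, AA_degree, Nat.cast_add]
    exact WithBot.add_lt_add_left (by simp) (bF_deg v)

lemma dvd_of_roots {x : Fin n → F} (hx : Function.Injective x) {f : F[X]}
    (h : ∀ i, f.eval (x i) = 0) : AA x ∣ f := by
  apply Finset.prod_dvd_of_coprime
  · intro i _ j _ hij
    exact pairwise_coprime_X_sub_C hx hij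
  · intro i _
    exact dvd_iff_isRoot.2 (h i)

end

section

variable {F : Type} [Field F] {n D r q : ℕ}

/-- The map of the parameters. -/
noncomputable def Φ (n D r q : ℕ)
    (y : ((Fin (n + D) → F) × (Fin n → F) × (Fin n → F)) × (Fin (r + 1 - n) → F)) :
    (Fin n → F) × (Fin D → F) × (Fin (r + 1) → F) :=
  (y.1.2.1, fun i => ((mF y.1.1 - bb y.1.2.1 y.1.2.2 y.2 ^ q) /ₘ AA y.1.2.1).coeff i,
    fun i => (bb y.1.2.1 y.1.2.2 y.2).coeff i)

lemma spec (hn : n ≤ r + 1) (hr : q * r < n + D) (a : Fin (n + D) → F) {x : Fin n → F}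
    (hx : Function.Injective x) (z : Fin n → F) (hz : ∀ i, z i ^ q = (mF a).eval (x i))
    (v : Fin (r + 1 - n) → F) :
    bF (fun i : Fin (r + 1) => (bb x z v).coeff i) = bb x z v ∧
      AA x * mF (fun i : Fin D => ((mF a - bb x z v ^ q) /ₘ AA x).coeff i) + bb x z v ^ q =
        mF a := by
  have h1 : (bb x z v).degree < ((r + 1 : ℕ) : WithBot ℕ) := by
    have := bb_degree hx z v
    rwa [Nat.add_sub_cancel' hn] at this
  refine ⟨bF_of h1, ?_⟩
  have hdeg : (bb x z v ^ q).natDegree < (mF a).natDegree := by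
    rw [mF_natDegree]
    refine lt_of_le_of_lt ?_ hr
    rw [natDegree_pow]
    apply Nat.mul_le_mul_left
    by_cases h0 : bb x z v = 0
    · rw [h0]; simp
    · rw [degree_eq_natDegree h0] at h1
      have : (bb x z v).natDegree < r + 1 := by exact_mod_cast h1
      omega
  have hdvd : AA x ∣ mF a - bb x z v ^ q := by
    apply dvd_of_roots hx
    intro i
    rw [eval_sub, eval_pow, bb_eval hx, hz, sub_self]
  obtain ⟨Q, hQ⟩ := hdvd
  have hmon : (mF a - bb x z v ^ q).Monic :=
    (mF_monic a).sub_of_left (degree_lt_degree hdeg)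
  have hQm : Q.Monic := by
    rw [hQ] at hmon
    exact (AA_monic x).of_mul_monic_left hmon
  have hQd : Q.natDegree = D := by
    have h2 : (mF a - bb x z v ^ q).natDegree = n + D := by
      rw [natDegree_sub_eq_left_of_natDegree_lt hdeg, mF_natDegree]
    rw [hQ, (AA_monic x).natDegree_mul hQm, AA_natDegree] at h2
    omega
  rw [hQ, mul_divByMonic_cancel_left _ (AA_monic x), mF_of hQm hQd, ← hQ]
  ring

end

/-- From the points to the polynomials. -/
theorem irr2 : St_irr2 := by
  intro h n D r q R hR hq hD hn hnr hr hcop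
  obtain ⟨K₀, N₀, hK⟩ := h n (n + D) q R hR hq (by omega) hn hcop
  refine ⟨K₀, N₀, fun F _ _ hRF hN => ?_⟩
  have h1 := hK F hRF hN
  set S1 := {x : (Fin (n + D) → F) × (Fin n → F) × (Fin n → F) | GoodP R (mF x.1) ∧
        Function.Injective x.2.1 ∧ ∀ i, x.2.2 i ^ q = (mF x.1).eval (x.2.1 i)} with hS1
  set S := {x : (Fin n → F) × (Fin D → F) × (Fin (r + 1) → F) |
        GoodP R ((∏ i, (X - C (x.1 i))) * mF x.2.1 + bF x.2.2 ^ q)} with hS
  have key : (S1 ×ˢ (Set.univ : Set (Fin (r + 1 - n) → F))).ncard ≤ S.ncard := by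
    refine Set.ncard_le_ncard_of_injOn (Φ n D r q) ?_ ?_ (Set.toFinite _)
    · rintro ⟨⟨a, x, z⟩, v⟩ ⟨hy, -⟩
      obtain ⟨hg, hx, hz⟩ := hy
      obtain ⟨e1, e2⟩ := spec hnr hr a hx z hz v
      change GoodP R (AA x * mF (fun i : Fin D => ((mF a - bb x z v ^ q) /ₘ AA x).coeff i) +
        bF (fun i : Fin (r + 1) => (bb x z v).coeff i) ^ q)
      rw [e1, e2]
      exact hg
    · rintro ⟨⟨a, x, z⟩, v⟩ ⟨hy, -⟩ ⟨⟨a', x', z'⟩, v'⟩ ⟨hy', -⟩ he
      obtain ⟨hg, hx, hz⟩ := hy
      obtain ⟨hg', hx', hz'⟩ := hy'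
      simp only [Φ, Prod.mk.injEq] at he
      obtain ⟨rfl, g2, g3⟩ := he
      simp only at hx hz hx' hz' hg hg'
      obtain ⟨e1, e2⟩ := spec hnr hr a hx z hz v
      obtain ⟨e1', e2'⟩ := spec hnr hr a' hx' z' hz' v'
      have k1 : bb x z v = bb x z' v' := by rw [← e1, ← e1', g3]
      have k2 : mF a = mF a' := by rw [← e2, ← e2', g2, k1]
      have k3 : a = a' := mF_inj k2
      have k4 : z = z' := by
        funext i
        rw [← bb_eval hx z v i, ← bb_eval hx z' v' i, k1]
      subst k3 k4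
      have k5 : AA x * bF v = AA x * bF v' := by
        have := k1
        rw [bb, bb] at this
        exact add_left_cancel this
      have k6 : v = v' := bF_inj (mul_left_cancel₀ (AA_monic x).ne_zero k5)
      rw [k6]
  rw [Set.ncard_prod, Set.ncard_univ, Nat.card_eq_fintype_card, Fintype.card_fun,
    Fintype.card_fin] at key
  have hexp : n + D + (r + 1) = n + D + n + (r + 1 - n) := by omega
  calc Fintype.card F ^ (n + D + (r + 1)) =
      Fintype.card F ^ (n + D + n) * Fintype.card F ^ (r + 1 - n) := by rw [hexp, pow_add]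
    _ ≤ K₀ * S1.ncard * Fintype.card F ^ (r + 1 - n) := Nat.mul_le_mul_right _ h1
    _ = K₀ * (S1.ncard * Fintype.card F ^ (r + 1 - n)) := by ring
    _ ≤ K₀ * S.ncard := Nat.mul_le_mul_left _ key

end Pool.Agent.Y971.EN
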